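import Mathlib
import Pool.Agent.TH194.BL.LowG
import Pool.Agent.TH194.BL.Add

/-!
# Project EA, job LSF, part 1: the large sieve for functions of mean value zero

For a function `g` on `(ℤ/t)^k` of modulus at most one and mean value zero the sum
`∑ c(z) g(z mod t)` is bounded by the additive characters.
-/

set_option autoImplicit false

namespace Pool.Agent.Q237.EA

open Finset
open Pool.Agent.TH194.BL
open Pool.Agent.TH194.BL.G (low_orth low_cs)
open Pool.Agent.Helper112 (ee ls_ee_zero ls_ee_add ls_conj_ee)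

open Classical in
theorem one_prime (k t : ℕ) [Fact t.Prime] (Z : Finset (Fin k → ℕ)) (g : (Fin k → ZMod t) → ℂ)
    (hg1 : ∀ x, ‖g x‖ ≤ 1) (hg0 : ∑ x, g x = 0) (c : (Fin k → ℕ) → ℂ) :
    ‖∑ z ∈ Z, c z * g (fun i => ((z i : ℕ) : ZMod t))‖ ^ 2 ≤
      ∑ a ∈ (Fintype.piFinset (fun _ : Fin k => range t)).filter (fun a => ∃ i, a i ≠ 0),
      ‖∑ z ∈ Z, c z * ee (∑ i, (z i : ℝ) * (a i : ℝ) / (t : ℝ))‖ ^ 2 := by
  have htp : t.Prime := Fact.out
  have ht : 0 < t := htp.pos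
  set A := Fintype.piFinset (fun _ : Fin k => range t) with hA
  set Tf : (Fin k → ℕ) → ℂ := fun a => ∑ z ∈ Z, c z * ee (∑ i, (z i : ℝ) * (a i : ℝ) / (t : ℝ))
    with hTf
  set G : (Fin k → ℕ) → ℂ := fun a =>
    ∑ w, g w * ee (∑ i, (-((w i).val : ℤ) : ℤ) * (a i : ℝ) / (t : ℝ)) with hG
  have h1 : ∑ a ∈ A, Tf a * G a = (t : ℂ) ^ k * ∑ z ∈ Z, c z * g (fun i => ((z i : ℕ) : ZMod t)) := by
    have e1 : ∀ a, Tf a * G a = ∑ z ∈ Z, c z * ∑ w, g w *
        ee (∑ i, (((z i : ℤ) - ((w i).val : ℤ) : ℤ) : ℝ) * (a i : ℝ) / (t : ℝ)) := by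
      intro a
      rw [hTf, hG]
      simp only
      rw [Finset.sum_mul]
      refine Finset.sum_congr rfl fun z _ => ?_
      rw [mul_assoc, Finset.mul_sum]
      congr 1
      refine Finset.sum_congr rfl fun w _ => ?_
      rw [mul_left_comm, ← ls_ee_add, ← Finset.sum_add_distrib]
      congr 2
      refine Finset.sum_congr rfl fun i _ => ?_
      push_cast
      ring
    rw [Finset.sum_congr rfl fun a _ => e1 a, Finset.sum_comm, Finset.mul_sum]
    refine Finset.sum_congr rfl fun z hz => ?_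
    rw [← Finset.mul_sum, Finset.sum_comm, mul_left_comm]
    congr 1
    have e2 : ∀ w : Fin k → ZMod t, ∑ a ∈ A, g w *
        ee (∑ i, (((z i : ℤ) - ((w i).val : ℤ) : ℤ) : ℝ) * (a i : ℝ) / (t : ℝ)) =
        g w * (if ∀ i, (t : ℤ) ∣ (z i : ℤ) - ((w i).val : ℤ) then (t : ℂ) ^ k else 0) := by
      intro w
      rw [← Finset.mul_sum, low_orth k t ht _]
    rw [Finset.sum_congr rfl fun w _ => e2 w]
    rw [Finset.sum_eq_single (fun i => ((z i : ℕ) : ZMod t))]
    · rw [if_pos]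
      · ring
      intro i
      have : (((z i : ℤ) - (((z i : ℕ) : ZMod t).val : ℤ) : ℤ) : ZMod t) = 0 := by
        push_cast
        rw [ZMod.natCast_val, ZMod.cast_id', id, sub_self]
      exact (ZMod.intCast_zmod_eq_zero_iff_dvd _ _).1 this
    · intro w _ hne
      rw [if_neg, mul_zero]
      intro h
      apply hne
      funext i
      have h2 := (ZMod.intCast_zmod_eq_zero_iff_dvd _ t).2 (h i)
      push_cast at h2
      rw [ZMod.natCast_val, ZMod.cast_id', id, sub_eq_zero] at h2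
      exact h2.symm
    · intro h
      exact absurd (Finset.mem_univ _) h
  have h2 : ∑ a ∈ A, ‖G a‖ ^ 2 = (t : ℝ) ^ k * ∑ w, ‖g w‖ ^ 2 := by
    have e0 : ((∑ a ∈ A, ‖G a‖ ^ 2 : ℝ) : ℂ) = ((t : ℝ) ^ k * ∑ w, ‖g w‖ ^ 2 : ℝ) := by
      push_cast
      have e1 : ∀ a, ((‖G a‖ : ℂ)) ^ 2 = ∑ w, ∑ w', (g w * (starRingEnd ℂ) (g w')) *
          ee (∑ i, (((w' i).val : ℤ) - ((w i).val : ℤ) : ℤ) * (a i : ℝ) / (t : ℝ)) := by
        intro a
        rw [← Complex.mul_conj', hG]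
        simp only
        rw [map_sum, Finset.sum_mul_sum]
        refine Finset.sum_congr rfl fun w _ => Finset.sum_congr rfl fun w' _ => ?_
        rw [map_mul, ls_conj_ee, mul_mul_mul_comm, ← ls_ee_add, ← Finset.sum_neg_distrib,
          ← Finset.sum_add_distrib]
        congr 2
        refine Finset.sum_congr rfl fun i _ => ?_
        push_cast
        ring
      rw [Finset.sum_congr rfl fun a _ => e1 a, Finset.sum_comm, Finset.mul_sum]
      refine Finset.sum_congr rfl fun w _ => ?_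
      rw [Finset.sum_comm]
      have e2 : ∀ w' : Fin k → ZMod t, ∑ a ∈ A, (g w * (starRingEnd ℂ) (g w')) *
          ee (∑ i, (((w' i).val : ℤ) - ((w i).val : ℤ) : ℤ) * (a i : ℝ) / (t : ℝ)) =
          (g w * (starRingEnd ℂ) (g w')) *
            (if ∀ i, (t : ℤ) ∣ ((w' i).val : ℤ) - ((w i).val : ℤ) then (t : ℂ) ^ k else 0) := by
        intro w'
        rw [← Finset.mul_sum, low_orth k t ht _]
      rw [Finset.sum_congr rfl fun w' _ => e2 w', Finset.sum_eq_single w]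
      · rw [if_pos]
        · rw [Complex.mul_conj']
          ring
        intro i
        rw [sub_self]
        exact dvd_zero _
      · intro w' _ hne
        rw [if_neg, mul_zero]
        intro h
        apply hne
        funext i
        have h2 := (ZMod.intCast_zmod_eq_zero_iff_dvd _ t).2 (h i)
        push_cast at h2
        rw [ZMod.natCast_val, ZMod.cast_id', id, ZMod.natCast_val, ZMod.cast_id', id,
          sub_eq_zero] at h2
        exact h2
      · intro h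
        exact absurd (Finset.mem_univ _) h
    exact_mod_cast e0
  -- the term `a = 0`
  have h3 : ∀ a : Fin k → ℕ, (∀ i, a i = 0) → G a = 0 := by
    intro a ha
    have e1 : ∀ w : Fin k → ZMod t, g w * ee (∑ i, (-((w i).val : ℤ) : ℤ) * (a i : ℝ) / (t : ℝ)) =
        g w := by
      intro w
      rw [Finset.sum_eq_zero, ls_ee_zero, mul_one]
      intro i _
      rw [ha i]
      simp
    show ∑ w, g w * ee (∑ i, (-((w i).val : ℤ) : ℤ) * (a i : ℝ) / (t : ℝ)) = 0
    rw [Finset.sum_congr rfl fun w _ => e1 w, hg0]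
  set A' := A.filter (fun a => ∃ i, a i ≠ 0) with hA'
  have h4 : ∑ a ∈ A', Tf a * G a = ∑ a ∈ A, Tf a * G a := by
    rw [hA']
    refine Finset.sum_filter_of_ne ?_
    intro a _ hne
    by_contra hcon
    push Not at hcon
    exact hne (by rw [h3 a hcon, mul_zero])
  have h5 := low_cs A' Tf G
  rw [h4, h1, norm_mul, norm_pow, Complex.norm_natCast, mul_pow] at h5
  have h6 : ∑ a ∈ A', ‖G a‖ ^ 2 ≤ ((t : ℝ) ^ k) ^ 2 := by
    have e1 : ∑ a ∈ A', ‖G a‖ ^ 2 ≤ ∑ a ∈ A, ‖G a‖ ^ 2 :=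
      Finset.sum_le_sum_of_subset_of_nonneg (Finset.filter_subset _ _) fun a _ _ => by positivity
    have e2 : ∑ w, ‖g w‖ ^ 2 ≤ (t : ℝ) ^ k := by
      calc ∑ w, ‖g w‖ ^ 2 ≤ ∑ _w : Fin k → ZMod t, (1 : ℝ) := by
            refine Finset.sum_le_sum fun w _ => ?_
            exact pow_le_one₀ (norm_nonneg _) (hg1 w)
        _ = (t : ℝ) ^ k := by
            rw [Finset.sum_const, Finset.card_univ, Fintype.card_fun, ZMod.card, Fintype.card_fin]
            simp
    calc ∑ a ∈ A', ‖G a‖ ^ 2 ≤ (t : ℝ) ^ k * ∑ w, ‖g w‖ ^ 2 := by rw [← h2]; exact e1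
      _ ≤ (t : ℝ) ^ k * (t : ℝ) ^ k := mul_le_mul_of_nonneg_left e2 (by positivity)
      _ = _ := by ring
  have htk : (0 : ℝ) < ((t : ℝ) ^ k) ^ 2 := by positivity
  have hS : 0 ≤ ∑ a ∈ A', ‖Tf a‖ ^ 2 := Finset.sum_nonneg fun a _ => by positivity
  have h7 : ((t : ℝ) ^ k) ^ 2 * ‖∑ z ∈ Z, c z * g (fun i => ((z i : ℕ) : ZMod t))‖ ^ 2 ≤
      ((t : ℝ) ^ k) ^ 2 * ∑ a ∈ A', ‖Tf a‖ ^ 2 := by
    refine h5.trans ?_
    rw [mul_comm]
    exact mul_le_mul_of_nonneg_right h6 hS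
  exact le_of_mul_le_mul_left h7 htk

open Classical in
/-- all primes up to `F` -/
theorem all_primes (k N F : ℕ) (P : Finset ℕ) (hP : ∀ t ∈ P, t.Prime ∧ t ≤ F)
    (g : (t : ℕ) → (Fin k → ZMod t) → ℂ) (hg1 : ∀ t ∈ P, ∀ x, ‖g t x‖ ≤ 1)
    (hg0 : ∀ t ∈ P, ∀ s : Finset (Fin k → ZMod t), (∀ x, x ∈ s) → ∑ x ∈ s, g t x = 0)
    (c : (Fin k → ℕ) → ℂ) :
    ∑ t ∈ P, ‖∑ z ∈ Fintype.piFinset (fun _ : Fin k => Icc 1 N),
      c z * g t (fun i => ((z i : ℕ) : ZMod t))‖ ^ 2 ≤
    (6 * (N + (F : ℝ) ^ 2)) ^ k * ∑ z ∈ Fintype.piFinset (fun _ : Fin k => Icc 1 N), ‖c z‖ ^ 2 := by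
  refine le_trans ?_ (add k N F c)
  set S : ℕ → Finset (Fin k → ℕ) := fun t =>
    (Fintype.piFinset (fun _ : Fin k => range t)).filter (fun a => ∃ i, a i ≠ 0) with hS
  have h1 : ∑ t ∈ P, ‖∑ z ∈ Fintype.piFinset (fun _ : Fin k => Icc 1 N),
      c z * g t (fun i => ((z i : ℕ) : ZMod t))‖ ^ 2 ≤
      ∑ t ∈ P, ∑ a ∈ S t, ‖∑ z ∈ Fintype.piFinset (fun _ : Fin k => Icc 1 N),
        c z * ee (∑ i, (z i : ℝ) * (a i : ℝ) / (t : ℝ))‖ ^ 2 := by
    refine Finset.sum_le_sum fun t ht => ?_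
    haveI : Fact t.Prime := ⟨(hP t ht).1⟩
    exact one_prime k t _ (g t) (hg1 t ht) (hg0 t ht Finset.univ (fun x => Finset.mem_univ x)) c
  refine h1.trans ?_
  rw [Finset.sum_sigma']
  -- the embedding
  set φ : (Σ _ : ℕ, (Fin k → ℕ)) → (Fin k → ℕ × ℕ) := fun p i =>
    if p.2 i = 0 then (1, 0) else (p.1, p.2 i) with hφ
  have hinj : Set.InjOn φ (P.sigma S : Finset (Σ _ : ℕ, (Fin k → ℕ))) := by
    rintro ⟨t, a⟩ h ⟨t', a'⟩ h' he
    rw [Finset.mem_coe, Finset.mem_sigma] at h h'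
    simp only at h h'
    have e1 : ∀ i, a i = a' i := by
      intro i
      have e2 := congrFun he i
      rw [hφ] at e2
      simp only at e2
      by_cases q1 : a i = 0 <;> by_cases q2 : a' i = 0
      · rw [q1, q2]
      · rw [if_pos q1, if_neg q2] at e2
        exact absurd (congrArg Prod.snd e2).symm q2
      · rw [if_neg q1, if_pos q2] at e2
        exact absurd (congrArg Prod.snd e2) q1
      · rw [if_neg q1, if_neg q2] at e2
        exact congrArg Prod.snd e2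
    have e3 : a = a' := funext e1
    subst e3
    obtain ⟨i, hi⟩ := (Finset.mem_filter.1 h.2).2
    have e2 := congrFun he i
    rw [hφ] at e2
    simp only at e2
    rw [if_neg hi, if_neg hi] at e2
    have e4 : t = t' := congrArg Prod.fst e2
    subst e4
    rfl
  have hmem : (P.sigma S).image φ ⊆ Fintype.piFinset (fun _ : Fin k => Far F) := by
    intro r hr
    rw [Finset.mem_image] at hr
    obtain ⟨⟨t, a⟩, hp, rfl⟩ := hr
    rw [Finset.mem_sigma] at hp
    obtain ⟨ht, ha⟩ := hp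
    simp only at ht ha
    have ha1 := Fintype.mem_piFinset.1 (Finset.mem_filter.1 ha).1
    have htp := (hP t ht).1
    have htF := (hP t ht).2
    rw [Fintype.mem_piFinset]
    intro i
    rw [hφ]
    simp only
    have hai : a i < t := Finset.mem_range.1 (ha1 i)
    have h2t := htp.two_le
    split_ifs with hi
    · unfold Far
      rw [Finset.mem_filter, Finset.mem_product, Finset.mem_Icc, Finset.mem_range]
      refine ⟨⟨⟨le_refl 1, by omega⟩, by show 0 < F; omega⟩, by show 0 < 1; omega, ?_⟩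
      exact Nat.coprime_one_right 0
    · unfold Far
      rw [Finset.mem_filter, Finset.mem_product, Finset.mem_Icc, Finset.mem_range]
      refine ⟨⟨⟨by show 1 ≤ t; omega, htF⟩, by show a i < F; omega⟩, hai, ?_⟩
      show Nat.Coprime (a i) t
      rw [Nat.coprime_comm]
      exact (Nat.Prime.coprime_iff_not_dvd htp).2
        (Nat.not_dvd_of_pos_of_lt (Nat.pos_of_ne_zero hi) hai)
  have hval : ∀ p ∈ P.sigma S, ‖∑ z ∈ Fintype.piFinset (fun _ : Fin k => Icc 1 N),
      c z * ee (∑ i, (z i : ℝ) * (p.2 i : ℝ) / (p.1 : ℝ))‖ ^ 2 =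
      ‖∑ z ∈ Fintype.piFinset (fun _ : Fin k => Icc 1 N),
        c z * ee (∑ i, (z i : ℝ) * ((φ p) i).2 / ((φ p) i).1)‖ ^ 2 := by
    intro p _
    congr 2
    refine Finset.sum_congr rfl fun z _ => ?_
    congr 2
    refine Finset.sum_congr rfl fun i _ => ?_
    rw [hφ]
    simp only
    split_ifs with hi
    · rw [hi]
      simp
    · rfl
  rw [Finset.sum_congr rfl hval]
  have h2 := Finset.sum_image (s := P.sigma S) (g := φ) (f := fun r : Fin k → ℕ × ℕ =>
    ‖∑ z ∈ Fintype.piFinset (fun _ : Fin k => Icc 1 N),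
        c z * ee (∑ i, (z i : ℝ) * (r i).2 / (r i).1)‖ ^ 2) hinj
  rw [← h2]
  exact Finset.sum_le_sum_of_subset_of_nonneg hmem fun r _ _ => by positivity

end Pool.Agent.Q237.EA
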