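import Pool.Agent.Q161.EA.Stm
import Pool.Agent.Q247.EL.CNT
import Pool.Agent.Q91.EL.Small

/-!
# Project EA, job PSI: the characters
-/

set_option autoImplicit false

namespace Pool.Agent.Q237.EA.PSI

open Finset NumberField IsDedekindDomain
open Pool.Agent.Q161.EA Pool.Agent.Q51.EL Pool.Agent.Q247.EL

/-- the quadratic character of the field with `l ^ f` elements at integers -/
theorem qc_int (F : Type) [Field F] [Fintype F] [DecidableEq F] (l : ℕ) [Fact l.Prime] (hl2 : l ≠ 2)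
    (f : ℕ) (hF : Fintype.card F = l ^ f) (h0 : (l : F) = 0) (c : ℤ) (hc : ¬ (l : ℤ) ∣ c) :
    quadraticChar F (c : F) = (quadraticChar (ZMod l) (c : ZMod l)) ^ f := by
  have hlp : l.Prime := Fact.out
  haveI : CharP F l := by
    rw [CharP.charP_iff_prime_eq_zero hlp]
    exact h0
  have hrc : ringChar F = l := ringChar.eq F l
  have hchar : ringChar F ≠ 2 := by rw [hrc]; exact hl2
  have hcharl : ringChar (ZMod l) ≠ 2 := by rwa [ZMod.ringChar_zmod_n]
  have hlodd : Odd l := hlp.odd_of_ne_two hl2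
  -- the exponent
  obtain ⟨s, hs⟩ : ∃ s, s = ∑ i ∈ range f, l ^ i := ⟨_, rfl⟩
  have hgeo : (l - 1) * s = l ^ f - 1 := by
    rw [hs]
    have := Nat.geomSum_eq hlp.two_le f
    rw [this]
    have hd : l - 1 ∣ l ^ f - 1 := by
      have := Nat.sub_dvd_pow_sub_pow l 1 f
      simpa using this
    exact Nat.mul_div_cancel' hd
  obtain ⟨h, hh⟩ := hlodd
  have hexp : l ^ f / 2 = h * s := by
    have h1 : 2 * h * s = l ^ f - 1 := by
      rw [← hgeo, hh]
      simp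
    have h2 : 1 ≤ l ^ f := Nat.one_le_pow _ _ hlp.pos
    have h3 : l ^ f = 2 * (h * s) + 1 := by
      have : 2 * (h * s) = 2 * h * s := by ring
      omega
    rw [h3]
    omega
  have hhalf : l / 2 = h := by omega
  -- the parity of the exponent
  have hpar : s % 2 = f % 2 := by
    rw [hs]
    clear hs hgeo hexp hF
    induction f with
    | zero => simp
    | succ f ih =>
      rw [Finset.sum_range_succ, Nat.add_mod, ih]
      have : l ^ f % 2 = 1 := by
        rw [Nat.pow_mod]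
        have : l % 2 = 1 := by omega
        rw [this]
        simp
      rw [this]
      omega
  have hcz : (c : ZMod l) ≠ 0 := by
    rw [Ne, ZMod.intCast_zmod_eq_zero_iff_dvd]
    exact hc
  have hcF : (c : F) ≠ 0 := by
    rw [Ne, CharP.intCast_eq_zero_iff F l]
    exact hc
  obtain ⟨e, he⟩ : ∃ e, e = quadraticChar (ZMod l) (c : ZMod l) := ⟨_, rfl⟩
  have he1 : e = 1 ∨ e = -1 := by
    rw [he]
    exact quadraticChar_dichotomy hcz
  have h1 : (e : ZMod l) = (c : ZMod l) ^ h := by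
    rw [he, quadraticChar_eq_pow_of_char_ne_two' hcharl, ZMod.card, hhalf]
  have h2 : (e : F) = (c : F) ^ h := by
    have h3 : ((e - c ^ h : ℤ) : ZMod l) = 0 := by
      push_cast
      rw [h1, sub_self]
    rw [ZMod.intCast_zmod_eq_zero_iff_dvd] at h3
    have h4 := (CharP.intCast_eq_zero_iff F l _).2 h3
    push_cast at h4
    exact sub_eq_zero.1 h4
  have h3 : e ^ s = e ^ f := by
    rcases he1 with h | h
    · rw [h, one_pow, one_pow]
    · rw [h, neg_one_pow_eq_pow_mod_two, hpar, ← neg_one_pow_eq_pow_mod_two]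
  have h4 : (quadraticChar F (c : F) : F) = ((e ^ f : ℤ) : F) := by
    rw [quadraticChar_eq_pow_of_char_ne_two' hchar, hF, hexp, pow_mul, ← h2, ← h3]
    push_cast
    rfl
  rw [← he]
  have h5 : (2 : F) ≠ 0 := Ring.two_ne_zero hchar
  have h6 : e ^ f = 1 ∨ e ^ f = -1 := by
    rcases he1 with h | h
    · left
      rw [h, one_pow]
    · rw [h]
      exact neg_one_pow_eq_or ℤ f
  have h7 : (1 : F) ≠ -1 := by
    intro h
    apply h5
    have : (1 : F) + 1 = 0 := by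
      nth_rewrite 2 [h]
      ring
    rw [← this]
    norm_num
  rcases quadraticChar_dichotomy hcF with q | q <;> rcases h6 with r | r
  · rw [q, r]
  · exfalso
    rw [q, r] at h4
    push_cast at h4
    exact h7 h4
  · exfalso
    rw [q, r] at h4
    push_cast at h4
    exact h7 h4.symm
  · rw [q, r]

section

variable {L : Type} [Field L] [NumberField L]

open Classical in
/-- the quadratic character of the residue field -/
noncomputable def chi (v : HeightOneSpectrum (𝓞 L)) (α : 𝓞 L) : ℤ :=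
  letI := v.isMaximal
  letI : Field (𝓞 L ⧸ v.asIdeal) := Ideal.Quotient.field v.asIdeal
  letI : Finite (𝓞 L ⧸ v.asIdeal) := Ideal.finiteQuotientOfFreeOfNeBot _ v.ne_bot
  letI : Fintype (𝓞 L ⧸ v.asIdeal) := Fintype.ofFinite _
  quadraticChar (𝓞 L ⧸ v.asIdeal) (Ideal.Quotient.mk v.asIdeal α)

theorem chi_mul (v : HeightOneSpectrum (𝓞 L)) (α β : 𝓞 L) : chi v (α * β) = chi v α * chi v β := by
  unfold chi
  simp only [map_mul]

theorem chi_unit (v : HeightOneSpectrum (𝓞 L)) {α : 𝓞 L} (h : α ∉ v.asIdeal) :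
    chi v α = 1 ∨ chi v α = -1 := by
  classical
  letI := v.isMaximal
  letI : Field (𝓞 L ⧸ v.asIdeal) := Ideal.Quotient.field v.asIdeal
  letI : Finite (𝓞 L ⧸ v.asIdeal) := Ideal.finiteQuotientOfFreeOfNeBot _ v.ne_bot
  letI : Fintype (𝓞 L ⧸ v.asIdeal) := Fintype.ofFinite _
  unfold chi
  exact quadraticChar_dichotomy (fun h0 => h ((Ideal.Quotient.eq_zero_iff_mem).1 h0))

theorem chi_mem (v : HeightOneSpectrum (𝓞 L)) {α : 𝓞 L} (h : α ∈ v.asIdeal) : chi v α = 0 := by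
  classical
  letI := v.isMaximal
  letI : Field (𝓞 L ⧸ v.asIdeal) := Ideal.Quotient.field v.asIdeal
  letI : Finite (𝓞 L ⧸ v.asIdeal) := Ideal.finiteQuotientOfFreeOfNeBot _ v.ne_bot
  letI : Fintype (𝓞 L ⧸ v.asIdeal) := Fintype.ofFinite _
  unfold chi
  exact quadraticChar_eq_zero_iff.2 ((Ideal.Quotient.eq_zero_iff_mem).2 h)

theorem chi_one (v : HeightOneSpectrum (𝓞 L)) : chi v 1 = 1 := by
  unfold chi
  simp only [map_one]

theorem chi_congr (v : HeightOneSpectrum (𝓞 L)) {α β : 𝓞 L} (h : α - β ∈ v.asIdeal) :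
    chi v α = chi v β := by
  unfold chi
  rw [(Ideal.Quotient.eq).2 h]

theorem chi_abs (v : HeightOneSpectrum (𝓞 L)) (α : 𝓞 L) : |(chi v α : ℝ)| ≤ 1 := by
  by_cases h : α ∈ v.asIdeal
  · rw [chi_mem v h]
    simp
  · rcases chi_unit v h with q | q <;> rw [q] <;> simp

theorem chi_sq (v : HeightOneSpectrum (𝓞 L)) {α : 𝓞 L} (h : α ∉ v.asIdeal) :
    chi v α * chi v α = 1 := by
  rcases chi_unit v h with q | q <;> rw [q] <;> norm_num

theorem chi_int {l : ℕ} [Fact l.Prime] (hl2 : l ≠ 2) (v : HeightOneSpectrum (𝓞 L)) (hv : Abv v l)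
    (f : ℕ) (hf : Nat.card (𝓞 L ⧸ v.asIdeal) = l ^ f) (c : ℤ) (hc : ¬ (l : ℤ) ∣ c) :
    chi v (c : 𝓞 L) = (quadraticChar (ZMod l) (c : ZMod l)) ^ f := by
  classical
  letI := v.isMaximal
  letI : Field (𝓞 L ⧸ v.asIdeal) := Ideal.Quotient.field v.asIdeal
  letI : Finite (𝓞 L ⧸ v.asIdeal) := Ideal.finiteQuotientOfFreeOfNeBot _ v.ne_bot
  letI : Fintype (𝓞 L ⧸ v.asIdeal) := Fintype.ofFinite _
  have h1 : Fintype.card (𝓞 L ⧸ v.asIdeal) = l ^ f := by
    rw [← Nat.card_eq_fintype_card]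
    exact hf
  have h2 : ((l : ℕ) : 𝓞 L ⧸ v.asIdeal) = 0 := by
    have : Ideal.Quotient.mk v.asIdeal (l : 𝓞 L) = 0 := (Ideal.Quotient.eq_zero_iff_mem).2 hv
    rw [map_natCast] at this
    exact this
  have h3 := qc_int (𝓞 L ⧸ v.asIdeal) l hl2 f h1 h2 c hc
  rw [← h3]
  unfold chi
  rw [map_intCast]

theorem chi_neg {l : ℕ} (hl : l.Prime) (hl2 : l ≠ 2) (v : HeightOneSpectrum (𝓞 L)) (hv : Abv v l) :
    ∃ a : 𝓞 L, chi v a = -1 := by
  classical
  letI := v.isMaximal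
  letI : Field (𝓞 L ⧸ v.asIdeal) := Ideal.Quotient.field v.asIdeal
  letI : Finite (𝓞 L ⧸ v.asIdeal) := Ideal.finiteQuotientOfFreeOfNeBot _ v.ne_bot
  letI : Fintype (𝓞 L ⧸ v.asIdeal) := Fintype.ofFinite _
  have h2 : ((l : ℕ) : 𝓞 L ⧸ v.asIdeal) = 0 := by
    have : Ideal.Quotient.mk v.asIdeal (l : 𝓞 L) = 0 := (Ideal.Quotient.eq_zero_iff_mem).2 hv
    rw [map_natCast] at this
    exact this
  haveI : CharP (𝓞 L ⧸ v.asIdeal) l := by
    rw [CharP.charP_iff_prime_eq_zero hl]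
    exact h2
  have hchar : ringChar (𝓞 L ⧸ v.asIdeal) ≠ 2 := by
    rw [ringChar.eq (𝓞 L ⧸ v.asIdeal) l]
    exact hl2
  obtain ⟨a, ha⟩ := FiniteField.exists_nonsquare hchar
  obtain ⟨b, hb⟩ := Ideal.Quotient.mk_surjective a
  refine ⟨b, ?_⟩
  unfold chi
  rw [hb]
  exact quadraticChar_neg_one_iff_not_isSquare.2 ha

attribute [irreducible] chi

/-- the properties of the character modulo `l` -/
theorem exists_psi (hodd : Odd (Module.finrank ℚ L)) (h3 : 3 ≤ Module.finrank ℚ L) {l : ℕ}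
    (hl : l.Prime) (hl2 : l ≠ 2) (hsq : Squarefree (Ideal.span {(l : 𝓞 L)})) (hN : 1 ≤ N1 L l) :
    ∃ φ : 𝓞 L → ℝ, (∀ α β, φ (α * β) = φ α * φ β) ∧ (∀ α, |φ α| ≤ 1) ∧
      (∀ α β, (l : 𝓞 L) ∣ α - β → φ α = φ β) ∧
      (∃ u w : 𝓞 L, (l : 𝓞 L) ∣ u * w - 1 ∧ φ u = -1) ∧
      (∀ α, Un l α → φ α = 1 ∨ φ α = -1) ∧
      (∀ (α β : 𝓞 L) (c : ℤ), ¬ (l : ℤ) ∣ c → Un l α → Un l β →
        (∀ v : HeightOneSpectrum (𝓞 L), Abv v l → ∃ g : 𝓞 L, (c : 𝓞 L) * α * β - g ^ 2 ∈ v.asIdeal) →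
        φ α = φ β) := by
  classical
  haveI : Fact l.Prime := ⟨hl⟩
  haveI := finite_VV L hl
  haveI : Fintype (VV L l) := Fintype.ofFinite _
  -- the prime `v0`
  obtain ⟨⟨w0, hw0⟩⟩ : Nonempty {v : HeightOneSpectrum (𝓞 L) // Ideal.absNorm v.asIdeal = l} := by
    by_contra hcon
    rw [not_nonempty_iff] at hcon
    unfold N1 at hN
    rw [Nat.card_of_isEmpty] at hN
    omega
  have hw0l : Abv w0 l := by
    have := Ideal.absNorm_mem w0.asIdeal
    rw [hw0] at this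
    exact this
  obtain ⟨v0, hv0⟩ : ∃ v0 : VV L l, v0 = ⟨w0, hw0l⟩ := ⟨_, rfl⟩
  -- residue degrees
  have hfd : ∀ v : VV L l, ∃ f : ℕ, Nat.card (𝓞 L ⧸ v.1.asIdeal) = l ^ f := by
    intro v
    have h1 : Ideal.absNorm v.1.asIdeal = Nat.card (𝓞 L ⧸ v.1.asIdeal) := by
      rw [Ideal.absNorm_apply, Submodule.cardQuot_apply]
    have h2 : Ideal.absNorm v.1.asIdeal ∣ l ^ Module.finrank ℤ (𝓞 L) := by
      rw [← Ideal.absNorm_span_natCast]
      apply Ideal.absNorm_dvd_absNorm_of_le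
      rw [Ideal.span_singleton_le_iff_mem]
      exact v.2
    rw [Nat.dvd_prime_pow hl] at h2
    obtain ⟨k, _, hk⟩ := h2
    exact ⟨k, by rw [← h1, hk]⟩
  choose f hf using hfd
  have hsum : ∑ v : VV L l, f v = Module.finrank ℚ L := by
    have h1 := prod_card L hl hsq
    rw [Finset.prod_congr rfl fun v _ => hf v, Finset.prod_pow_eq_pow_sum] at h1
    exact Nat.pow_right_injective hl.two_le h1
  have hf0 : f v0 = 1 := by
    have h1 := hf v0
    rw [card_eq_norm L v0, hv0] at h1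
    simp only at h1
    rw [hw0] at h1
    have h2 : l ^ 1 = l ^ f v0 := by rw [pow_one, hv0]; exact h1
    exact (Nat.pow_right_injective hl.two_le h2).symm
  obtain ⟨U, hU⟩ : ∃ U : Finset (VV L l), U = univ.erase v0 := ⟨_, rfl⟩
  have hsumU : ∑ v ∈ U, f v + 1 = Module.finrank ℚ L := by
    rw [hU, ← hsum, ← Finset.sum_erase_add _ _ (Finset.mem_univ v0), hf0]
  have hUne : U.Nonempty := by
    rw [Finset.nonempty_iff_ne_empty]
    intro h0
    rw [h0, Finset.sum_empty] at hsumU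
    omega
  have hevU : Even (∑ v ∈ U, f v) := by
    rw [← hsumU, Nat.odd_add_one, Nat.not_odd_iff_even] at hodd
    exact hodd
  -- the character
  have hint : ∀ c : ℤ, ¬ (l : ℤ) ∣ c → ∏ v ∈ U, chi v.1 (c : 𝓞 L) = 1 := by
    intro c hc
    have hcz : (c : ZMod l) ≠ 0 := by
      rw [Ne, ZMod.intCast_zmod_eq_zero_iff_dvd]
      exact hc
    have e1 : ∀ v ∈ U, chi v.1 (c : 𝓞 L) = (quadraticChar (ZMod l) (c : ZMod l)) ^ f v :=
      fun v _ => chi_int hl2 v.1 v.2 (f v) (hf v) c hc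
    rw [Finset.prod_congr rfl e1, Finset.prod_pow_eq_pow_sum]
    obtain ⟨m, hm⟩ := hevU
    rw [hm, pow_add, ← mul_pow]
    rcases quadraticChar_dichotomy hcz with q | q <;> rw [q] <;> norm_num
  have hUn : ∀ α, Un l α → (∏ v ∈ U, chi v.1 α) * (∏ v ∈ U, chi v.1 α) = 1 := by
    intro α hα
    rw [← Finset.prod_mul_distrib]
    exact Finset.prod_eq_one fun v _ => chi_sq v.1 (hα v.1 v.2)
  refine ⟨fun α => ((∏ v ∈ U, chi v.1 α : ℤ) : ℝ), ?_, ?_, ?_, ?_, ?_, ?_⟩
  · intro α β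
    simp only
    rw [Finset.prod_congr rfl fun v _ => chi_mul v.1 α β, Finset.prod_mul_distrib]
    push_cast
    rfl
  · intro α
    simp only
    push_cast
    rw [Finset.abs_prod]
    exact Finset.prod_le_one (fun v _ => abs_nonneg _) fun v _ => chi_abs v.1 α
  · intro α β h
    simp only
    congr 1
    refine Finset.prod_congr rfl fun v _ => chi_congr v.1 ?_
    obtain ⟨w, hw⟩ := h
    rw [hw]
    exact v.1.asIdeal.mul_mem_right _ v.2
  · obtain ⟨v1, hv1⟩ := hUne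
    obtain ⟨a, ha⟩ := chi_neg hl hl2 v1.1 v1.2
    obtain ⟨u, hu⟩ := Ideal.pi_quotient_surjective (pairwise_VV L (l := l))
      (fun v => if v = v1 then Ideal.Quotient.mk v.1.asIdeal a else 1)
    have hu1 : ∀ v : VV L l, chi v.1 u = if v = v1 then -1 else 1 := by
      intro v
      have h1 := hu v
      split_ifs at h1 ⊢ with hv
      · subst hv
        have h2 : u - a ∈ v.1.asIdeal := (Ideal.Quotient.eq).1 h1
        rw [chi_congr v.1 h2, ha]
      · have h2 : u - 1 ∈ v.1.asIdeal := by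
          rw [← Ideal.Quotient.eq]
          rw [h1, map_one]
        rw [chi_congr v.1 h2, chi_one]
    have hun : ∀ v : VV L l, u ∉ v.1.asIdeal := by
      intro v h
      have h1 := hu1 v
      rw [chi_mem v.1 h] at h1
      split_ifs at h1 <;> omega
    have hinv : ∀ v : VV L l, ∃ b : 𝓞 L ⧸ v.1.asIdeal, Ideal.Quotient.mk v.1.asIdeal u * b = 1 := by
      intro v
      haveI := v.1.isMaximal
      exact Ideal.Quotient.exists_inv (fun h => hun v ((Ideal.Quotient.eq_zero_iff_mem).1 h))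
    choose b hb using hinv
    obtain ⟨w, hw⟩ := Ideal.pi_quotient_surjective (pairwise_VV L (l := l)) b
    refine ⟨u, w, ?_, ?_⟩
    · rw [← Ideal.mem_span_singleton, ← iInf_VV L hl hsq, Ideal.mem_iInf]
      intro v
      rw [← Ideal.Quotient.eq_zero_iff_mem, map_sub, map_mul, map_one]
      have h1 : Ideal.Quotient.mk v.1.asIdeal w = b v := hw v
      rw [h1, hb, sub_self]
    · simp only
      rw [Finset.prod_congr rfl fun v _ => hu1 v]
      rw [Finset.prod_ite_eq' U v1 (fun _ => (-1 : ℤ)), if_pos hv1]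
      norm_num
  · intro α hα
    have h1 := hUn α hα
    simp only
    rcases mul_self_eq_one_iff.1 h1 with h | h
    · left
      rw [h]
      norm_num
    · right
      rw [h]
      norm_num
  · intro α β c hc hα hβ hg
    simp only
    congr 1
    have h1 : (∏ v ∈ U, chi v.1 (c : 𝓞 L)) * (∏ v ∈ U, chi v.1 α) * (∏ v ∈ U, chi v.1 β) = 1 := by
      rw [← Finset.prod_mul_distrib, ← Finset.prod_mul_distrib]
      refine Finset.prod_eq_one fun v _ => ?_
      rw [← chi_mul, ← chi_mul]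
      obtain ⟨g, hg'⟩ := hg v.1 v.2
      rw [chi_congr v.1 hg', sq, chi_mul]
      apply chi_sq
      intro hgm
      have h2 : (c : 𝓞 L) * α * β ∈ v.1.asIdeal := by
        have : (c : 𝓞 L) * α * β = ((c : 𝓞 L) * α * β - g ^ 2) + g * g := by ring
        rw [this]
        exact v.1.asIdeal.add_mem hg' (v.1.asIdeal.mul_mem_left _ hgm)
      have hp := v.1.isPrime
      rcases hp.mem_or_mem h2 with h3 | h3
      · rcases hp.mem_or_mem h3 with h4 | h4
        · exact hc (int_mem L hl v c h4)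
        · exact hα v.1 v.2 h4
      · exact hβ v.1 v.2 h3
    rw [hint c hc, one_mul] at h1
    have h2 := hUn β hβ
    calc (∏ v ∈ U, chi v.1 α) = (∏ v ∈ U, chi v.1 α) * ((∏ v ∈ U, chi v.1 β) * (∏ v ∈ U, chi v.1 β)) := by
          rw [h2, mul_one]
      _ = ((∏ v ∈ U, chi v.1 α) * (∏ v ∈ U, chi v.1 β)) * (∏ v ∈ U, chi v.1 β) := by ring
      _ = ∏ v ∈ U, chi v.1 β := by rw [h1, one_mul]

end

/-- JOB PSI -/
theorem psi : S_PSI := by
  classical
  intro L _ _ hodd h3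
  obtain ⟨⟨B0, hB0, hB⟩, _⟩ := Pool.Agent.Q91.EL.ram L
  have key : ∀ l : ℕ, ∃ φ : 𝓞 L → ℝ, (∀ α β, φ (α * β) = φ α * φ β) ∧ (∀ α, |φ α| ≤ 1) ∧
      (∀ α β, (l : 𝓞 L) ∣ α - β → φ α = φ β) ∧ (l.Prime → ¬ l ∣ 2 * B0 → 1 ≤ N1 L l →
      (∃ u w : 𝓞 L, (l : 𝓞 L) ∣ u * w - 1 ∧ φ u = -1) ∧
      (∀ α, Un l α → φ α = 1 ∨ φ α = -1) ∧
      (∀ (α β : 𝓞 L) (c : ℤ), ¬ (l : ℤ) ∣ c → Un l α → Un l β →
        (∀ v : HeightOneSpectrum (𝓞 L), Abv v l → ∃ g : 𝓞 L, (c : 𝓞 L) * α * β - g ^ 2 ∈ v.asIdeal) →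
        φ α = φ β)) := by
    intro l
    by_cases h : l.Prime ∧ ¬ l ∣ 2 * B0 ∧ 1 ≤ N1 L l
    · obtain ⟨hl, hlB, hN⟩ := h
      have hl2 : l ≠ 2 := by
        rintro rfl
        exact hlB (dvd_mul_right _ _)
      have hsq := hB l hl (fun h => hlB (Dvd.dvd.mul_left h 2))
      obtain ⟨φ, q1, q2, q3, q4, q5, q6⟩ := exists_psi hodd h3 hl hl2 hsq hN
      exact ⟨φ, q1, q2, q3, fun _ _ _ => ⟨q4, q5, q6⟩⟩
    · refine ⟨fun _ => 1, fun _ _ => by norm_num, fun _ => by norm_num, fun _ _ _ => rfl, ?_⟩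
      intro h1 h2 h3
      exact absurd ⟨h1, h2, h3⟩ h
  choose ψ h1 h2 h3' h4 using key
  refine ⟨2 * B0, ψ, by omega, ?_⟩
  exact
    { mul := h1
      abs := h2
      red := fun l α β _ h => h3' l α β h
      neg := fun l hl hB hN => (h4 l hl hB hN).1
      unit := fun l α hl hB hN hα => (h4 l hl hB hN).2.1 α hα
      coset := fun l α β c hl hB hN hc hα hβ hg => (h4 l hl hB hN).2.2 α β c hc hα hβ hg }

end Pool.Agent.Q237.EA.PSI
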